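import Pool.Agent.H583.GD.L

/-!
# The truncated counting function on `M_{0, n + 3}`: five points are better than four

Different nonzero rational numbers `x_0, …, x_n` up to a common factor, that is the configurations of
the `n + 3` different points `0`, `∞`, `x_0`, …, `x_n` of the projective line, are the rational points of
the moduli space `M_{0, n + 3}`. Let `X` be its smooth compactification by stable curves and `D` the
boundary. For coprime integral coordinates the primes at which the point meets `D` are the primes which
divide one of the numbers `x_i` and `x_i - x_j`; `N^(1)_S(D, x)` is the sum of their logarithms,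
without the primes of `S`.

For `n = 1` (four points) there are `X ^ (2 / 3 + o(1))` points, of all heights, with
`N^(1)_S(D, x) ≤ log X` (starting library). We show that for all `n ≥ 2` (at least five points)
there are at most `C X ^ (3 / 5 + ε)` of them, whatever their heights; for `n = 2` there are at least
`c X ^ (1 / 2)`. For comparison, for `n = 2` the compactification is a del Pezzo surface of degree five
with `K_X + D = -K_X`; the inequality `N^(1)_S(D, x) ≥ (1 - ε) h_{-K}(x) - C` of Vojta's conjecture
bounds the number of these points by the number of all points with `h_{-K} ≤ (1 + 2 ε) log X`, which is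
`X ^ (1 + 2 ε)` up to logarithms.

As a consequence the configurations of at least five points behave differently from those of four
points with respect to infinite sets of primes. Let `E` be a random set of primes which contains the
primes `p` independently with the probabilities `p ^ (-γ)`.

* If `γ > 3/5`, almost surely for each finite set `S` of primes there are only finitely many
  configurations of at least five points, of all `n ≥ 2` together, which are integral outside of
  `E ∪ S`: the set of the `(E ∪ S)`-integral points of `M_{0, n + 3}` is finite for all `n ≥ 2` and empty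
  for large `n`.
* If `1/2 < γ < 2/3`, almost surely there are infinitely many configurations of four points which are
  integral outside of `E ∪ {2}` (starting library: abc triples supported on a random set of primes).

So for `3/5 < γ < 2/3` finiteness fails for `M_{0, 4}` and holds for `M_{0, n + 3}`, `n ≥ 2`.

Method: five points have five cross-ratios `y_i` with `y_{i-1} y_{i+1} = 1 + y_i`. A local computation
shows that for one `i` the radical `R` of the abc triple of `y_i` and its height `H` satisfy
`R ^ 5 ≤ Z H ^ 10`, where `Z` is the product of all bad primes. The triples with radical at most `R` and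
height at least `H` are at most `R ^ ε (R ^ (3 / 5) + R / H)` in number (library). The other points are
found with the known primes free, by counting the values of four linear forms (`H583/GD`). Points whose
height is not bounded by a power of the radical are counted by `MP_2ec8a3_nt.LinkedTriples`.
-/

set_option autoImplicit false

namespace Pool.Agent.Results.MP_9ec3f0_nt.FivePoints

open Finset MeasureTheory ProbabilityTheory

/-- coprime integral coordinates of a configuration of the `n + 3` different points `0`, `∞`,
`x_0`, …, `x_n` (each configuration has two such vectors, `x` and `-x`) -/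
def Configuration {n : ℕ} (x : Fin (n + 1) → ℤ) : Prop :=
  univ.gcd x = 1 ∧ (∀ i, x i ≠ 0) ∧ Function.Injective x

/-- the product of the numbers `x_i` and `x_i - x_j`, `i ≠ j`; the primes which divide it are those at
which two of the points meet -/
def boundary {n : ℕ} (x : Fin (n + 1) → ℤ) : ℤ :=
  (∏ i, x i) * ∏ p ∈ univ.filter (fun p : Fin (n + 1) × Fin (n + 1) => p.1 ≠ p.2), (x p.1 - x p.2)

/-- the truncated counting function `N^(1)_S(D, x)` for the boundary `D` of `M_{0, n + 3}` -/
noncomputable def counting {n : ℕ} (S : Finset ℕ) (x : Fin (n + 1) → ℤ) : ℝ :=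
  ∑ p ∈ (boundary x).natAbs.primeFactors \ S, Real.log p

/-- the configurations, of whatever height, with `N^(1)_S(D, x) ≤ log X` -/
def Points (n : ℕ) (S : Finset ℕ) (X : ℝ) : Set (Fin (n + 1) → ℤ) :=
  {x | Configuration x ∧ counting S x ≤ Real.log X}

/-- the event `E p` says that the prime `p` belongs to the random set: the events are measurable and
independent, and the event `E p` has the probability `p ^ (-γ)` -/
structure IsRandomSet {Ω : Type*} [MeasurableSpace Ω] (P : Measure Ω) (γ : ℝ) (E : ℕ → Set Ω) :
    Prop where
  measurable : ∀ p, MeasurableSet (E p)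
  independent : iIndepSet E P
  prob : ∀ p : ℕ, p.Prime → P (E p) = ENNReal.ofReal ((p : ℝ) ^ (-γ))

/-- the configuration is integral with respect to the boundary outside of the primes of `S` and of the
random set, for the outcome `ω` -/
def Integral {Ω : Type*} {n : ℕ} (S : Finset ℕ) (E : ℕ → Set Ω) (ω : Ω) (x : Fin (n + 1) → ℤ) :
    Prop := ∀ p : ℕ, p.Prime → (p : ℤ) ∣ boundary x → p ∈ S ∨ ω ∈ E p

open Pool.Agent.H583.GD

theorem counting_eq {n : ℕ} (S : Finset ℕ) (x : Fin (n + 1) → ℤ) :
    counting S x = Real.log (rdc S x) := by
  unfold counting rdc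
  push_cast
  rw [Real.log_prod]
  · rfl
  intro p hp
  exact_mod_cast (Nat.prime_of_mem_primeFactors (mem_sdiff.1 hp).1).ne_zero

theorem points_eq (n : ℕ) (S : Finset ℕ) {X : ℝ} (hX : 0 < X) :
    Points n S X = {x : Fin (n + 1) → ℤ | Cx x ∧ (rdc S x : ℝ) ≤ X} := by
  ext x
  have hr : (0 : ℝ) < rdc S x := by exact_mod_cast rdc_pos S x
  constructor
  · rintro ⟨h1, h2⟩
    rw [counting_eq] at h2
    exact ⟨h1, (Real.log_le_log_iff hr hX).1 h2⟩
  · rintro ⟨h1, h2⟩
    refine ⟨h1, ?_⟩
    rw [counting_eq]
    exact (Real.log_le_log_iff hr hX).2 h2

/-- **Theorem.** Let `D` be the boundary of `M_{0, n + 3}`. (1) For `n ≥ 2`, finite sets `S` of primes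
and `ε > 0` the rational points of `M_{0, n + 3}` with `N^(1)_S(D, x) ≤ log X`, of whatever height, are
finite in number, at most `C X ^ (3 / 5 + ε)`. (2) For `n = 2` there are at least `c X ^ (1 / 2)` of
them. (3) Let `E` be a random set of primes which contains the prime `p` with probability `p ^ (-γ)`,
independently. If `γ > 3/5`, almost surely for all finite `S` only finitely many rational points of all
the spaces `M_{0, n + 3}` with `n ≥ 2` together are integral outside of `E ∪ S`; if `1/2 < γ < 2/3`,
almost surely infinitely many rational points of `M_{0, 4}` are integral outside of `E ∪ {2}`. -/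
theorem result :
    (∀ n : ℕ, 2 ≤ n → ∀ (S : Finset ℕ) (ε : ℝ), 0 < ε → ∃ C : ℝ, 0 < C ∧ ∀ X : ℝ, 1 ≤ X →
      (Points n S X).Finite ∧ ((Points n S X).ncard : ℝ) ≤ C * X ^ (3 / 5 + ε)) ∧
    (∃ c X₀ : ℝ, 0 < c ∧ ∀ (S : Finset ℕ) (X : ℝ), X₀ ≤ X →
      c * X ^ (1 / 2 : ℝ) ≤ ((Points 2 S X).ncard : ℝ)) ∧
    (∀ (Ω : Type) [MeasurableSpace Ω] (P : Measure Ω) [IsProbabilityMeasure P] (γ : ℝ)
      (E : ℕ → Set Ω), IsRandomSet P γ E →
      (3 / 5 < γ → ∀ᵐ ω ∂P, ∀ S : Finset ℕ, {z : Σ n : ℕ, (Fin (n + 1) → ℤ) |
        2 ≤ z.1 ∧ Configuration z.2 ∧ Integral S E ω z.2}.Finite) ∧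
      (1 / 2 < γ → γ < 2 / 3 → ∀ᵐ ω ∂P,
        {x : Fin 2 → ℤ | Configuration x ∧ Integral {2} E ω x}.Infinite)) := by
  refine ⟨?_, ⟨1 / 64, 5184, by norm_num, ?_⟩, ?_⟩
  · intro n hn S ε hε
    obtain ⟨C, hC, h⟩ := count_conf hn S ε hε
    refine ⟨C, hC, ?_⟩
    intro X hX
    rw [points_eq n S (by linarith)]
    exact Pool.Agent.Results.MP_2ec8a3_nt.LinkedTriples.of_bound fun Q hQ => h X hX Q hQ
  · intro S X hX
    rw [points_eq 2 S (by linarith)]
    exact lower_five S hX
  · intro Ω _ P _ γ E h
    refine ⟨?_, ?_⟩
    · intro hγ
      rw [ae_all_iff]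
      intro S
      filter_upwards [five_ae P h.independent h.prob hγ S] with ω hω
      exact all_dims (fun p => p ∈ S ∨ ω ∈ E p) hω
    · intro hγ1 hγ2
      filter_upwards [four_ae P h.measurable h.independent h.prob hγ1 hγ2] with ω hω
      refine hω.mono ?_
      rintro x ⟨h1, h2⟩
      refine ⟨h1, ?_⟩
      intro p hp hd
      rw [mem_singleton]
      exact h2 p hp hd

end Pool.Agent.Results.MP_9ec3f0_nt.FivePoints
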