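import Mathlib
import Pool.Agent.H556.LG.Plane2

/-!
# Integral points on the log Calabi-Yau varieties `x y = P(T)` near the fibres of `x` and `y`

Everything is over `ℚ`; `S` is a finite set of primes, and the places of `S` are the real place
`none` and the places `some p`, `p ∈ S`, with the absolute values `av`. `ht` is the logarithmic
height and `cf S m` the logarithm of the prime-to-`S` part of `m ≥ 1`; so
`cf S x.num.natAbs` is the counting function (outside `S`) of the zeros, `cf S x.den` that of the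
poles of `x` (definitions in `Pool/Agent/H556/LG/Defs.lean`).

1. *Product of two lines.* `X = ℙ¹ × ℙ¹`, `D₀ = {x = ∞} + {y = ∞} + {x y = 1}`, so that
`K + D₀ ~ 0`, and `E` is any sum of fibres `{x = c}`, `{y = c'}` such that `D = D₀ + E` has normal
crossings (`c, c' ≠ 0`, `c c' ≠ 1`). Vojta's inequality
`m_{S,D}(P) + h_K(P) ≤ ε h_A(P)`, `A = O(1, 1)`, holds with `1 / 4 + ε` in place of `ε` for all
points outside a proper closed subset `Z` whose counting functions with respect to `D₀` are at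
most `δ h_A(P)`, for example for all `S`-integral points of `X ∖ D₀` outside `Z`. (The question
asks for `ε` and for the truncated counting function, `N^(1)_S(D, P) ≥ h_{K + D}(P) - ε h_A(P)`;
here we get `N_S(D, P) ≥ h_{K + D}(P) - (1 / 4 + ε) h_A(P)` for these points.)

2. *All `P ∈ ℤ[T_1, …, T_n]`.* For the almost `S`-integral points `(T, x, y)` of the variety
`x y = P(T)`, `T ∈ 𝔾_m^n`, `(x, y) ∈ 𝔸²`, outside a proper closed subset, the proximity to all
the fibres `x = c`, `y = c`, `c ∈ C`, is at most `N(x) N(y) / (N(x) + N(y)) + ε h`, where `N(x)`,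
`N(y)` are the counting functions of the zeros of `x` and of `y`.
-/

set_option autoImplicit false

namespace Pool.Agent.Results.MP_9ec3f0_nt.LogCalabiYauQuarter

open Pool.Agent.H556.LG

theorem result (S : Finset ℕ) (hS : ∀ p ∈ S, p.Prime) {ε : ℝ} (hε : 0 < ε) :
    (∀ C C' : Finset ℚ, (0 : ℚ) ∉ C → (0 : ℚ) ∉ C' → (∀ c ∈ C, ∀ c' ∈ C', c * c' ≠ 1) →
      ∃ δ : ℝ, 0 < δ ∧ ∃ R : MvPolynomial (Fin 2) ℤ, R ≠ 0 ∧
        ∀ x y : ℚ, MvPolynomial.aeval ![x, y] R ≠ 0 →
        cf S x.den ≤ δ * (ht x + ht y) → cf S y.den ≤ δ * (ht x + ht y) →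
        cf S (x * y - 1).num.natAbs ≤ δ * (ht x + ht y) →
        ∑ v ∈ Finset.insertNone S, (∑ c ∈ C, Real.posLog (1 / av v (x - c)) +
          ∑ c ∈ C', Real.posLog (1 / av v (y - c))) ≤ (1 / 4 + ε) * (ht x + ht y)) ∧
    (∀ (n : ℕ) (P : MvPolynomial (Fin n) ℤ), P ≠ 0 → ∀ C : Finset ℚ, (0 : ℚ) ∉ C →
      ∃ δ : ℝ, 0 < δ ∧ ∃ R : Polynomial (MvPolynomial (Fin n) ℤ), R ≠ 0 ∧
        ∀ (T : Fin n → ℚ) (x y : ℚ), x * y = MvPolynomial.aeval T P → evP T x R ≠ 0 →
        (∀ i, cf S (T i).num.natAbs ≤ δ * (ht x + ht y + ∑ i, ht (T i)) ∧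
          cf S (T i).den ≤ δ * (ht x + ht y + ∑ i, ht (T i))) →
        cf S x.den ≤ δ * (ht x + ht y + ∑ i, ht (T i)) →
        cf S y.den ≤ δ * (ht x + ht y + ∑ i, ht (T i)) →
        ∀ f : Option ℕ → Bool × ℚ, (∀ v, (f v).2 ∈ C) →
          ∑ v ∈ Finset.insertNone S, Real.posLog
            (1 / av v ((if (f v).1 = true then x else y) - (f v).2)) ≤
          cf S x.num.natAbs * cf S y.num.natAbs /
            (cf S x.num.natAbs + cf S y.num.natAbs) +
            ε * (ht x + ht y + ∑ i, ht (T i))) :=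
  ⟨fun C C' hC hC' hCC => plane S hS C C' hC hC' hCC hε,
    fun _ P hP C hC => near S hS P hP C hC hε⟩

end Pool.Agent.Results.MP_9ec3f0_nt.LogCalabiYauQuarter
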