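import Mathlib
import Pool.Agent.H432.TC.Uni

set_option autoImplicit false

/-!
# One sparse set of parameters in Vojta's conjecture with truncated counting function for all smooth
# varieties and all rational curves

`X ⊂ ℙ^(M - 1)` is a smooth projective variety over a number field `k` of dimension `n ≥ 1` (the
equations `G i` generate its prime ideal) and `D = D_1 + ⋯ + D_q` is a divisor with normal crossings
on `X`, where `D_i` is the intersection of `X` with the common zeros of forms `F i j` of degree `δ i`.

For every number field `K` and every `ε > 0` there is one set `E(K, ε)` of points of the projective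
line over `K`, with at most `C B ^ (2 - ν)` of the approximately `B ^ 2` points of height at most `B`,
and for every `X`, `D` and `N` there is one proper closed subset `Z` of `X`, such that for all `K ⊃ k`,
all rational curves `φ : ℙ^1 → X` over `K` of degree at most `N` which are not contained in `Z ∪ D`
and all finite sets `S` of primes the points `x = φ(s)` outside `D` with a parameter `s ∈ ℙ^1(K)`
outside `E(K, ε)` satisfy Vojta's inequality with a gain,

`h_K(x) + h_D(x) + (2 - ε) h(s) ≤ N^(1)_S(D, x) + C`,

provided that the parameters of the points in which `φ` meets `D` have degree at most five over `K`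
(for instance, if `N δ i ≤ 5` for all `i`).
-/

namespace Pool.Agent.Results.MP_9ec3f0_nt.OneSparseSetOfParameters

open NumberField IsDedekindDomain MvPolynomial

/-- The absolute logarithmic height of a vector over `L`. -/
noncomputable def height {L : Type} [Field L] [NumberField L] {ι : Type} [Finite ι]
    (x : ι → L) : ℝ := Height.logHeight x / Module.finrank ℚ L

/-- The tangent space at `z` of the affine cone over the variety with the equations `G i`: the vectors
`v` with `∑ j, (∂_j G i)(z) v_j = 0` for all `i`. -/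
noncomputable def tangentSpace {k Ω : Type} [Field k] [Field Ω] [Algebra k Ω] {M g : ℕ}
    (G : Fin g → MvPolynomial (Fin M) k) (z : Fin M → Ω) : Submodule Ω (Fin M → Ω) :=
  ⨅ i, LinearMap.ker (∑ j, aeval z (pderiv j (G i)) • LinearMap.proj (R := Ω) (φ := fun _ => Ω) j)

/-- The variety with the equations `G i` is smooth of dimension `n`: at all points over all extension
fields the tangent space of the cone has dimension `n + 1`. -/
def IsSmooth {k : Type} [Field k] {M g : ℕ} (n : ℕ) (G : Fin g → MvPolynomial (Fin M) k) : Prop :=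
  ∀ (Ω : Type) [Field Ω] [Algebra k Ω] (z : Fin M → Ω), z ≠ 0 → (∀ i, aeval z (G i) = 0) →
    Module.finrank Ω (tangentSpace G z) = n + 1

/-- The subschemes `D_i` of the (smooth) variety, where `D_i` has the equations `F i j`, have normal
crossings: at each point `z` of the variety over each extension field one can choose for every `i` one
of the equations `F i j` such that the differentials of the chosen equations of those `D_i` which
contain `z` are linearly independent on the tangent space. -/
def IsNormalCrossings {k : Type} [Field k] {M g q w : ℕ}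
    (G : Fin g → MvPolynomial (Fin M) k) (F : Fin q → Fin w → MvPolynomial (Fin M) k) : Prop :=
  ∀ (Ω : Type) [Field Ω] [Algebra k Ω] (z : Fin M → Ω), z ≠ 0 → (∀ i, aeval z (G i) = 0) →
    ∃ J : Fin q → Fin w, ∀ c : Fin q → Ω,
      (∀ i, c i ≠ 0 → ∀ j, aeval z (F i j) = 0) →
      (∀ v ∈ tangentSpace G z, ∑ i, c i * ∑ l, aeval z (pderiv l (F i (J i))) * v l = 0) → c = 0

/-- The point with the parameter `z = (z_0 : z_1)` on the curve with the coefficients `c`: its
coordinates are the binary forms `∑ m, c l m z_0 ^ m z_1 ^ (d - m)` of degree `d`. -/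
def curvePoint {R : Type} [CommRing R] {M d : ℕ} (c : Fin M → Fin (d + 1) → R) (z : Fin 2 → R) :
    Fin M → R := fun l => ∑ m : Fin (d + 1), c l m * (z 0 ^ (m : ℕ) * z 1 ^ (d - m))

/-- The binary forms with the coefficients `c` have no common zero and define a morphism from the
projective line to the variety with the equations `G i`. -/
def IsRationalCurve {k L : Type} [Field k] [Field L] [Algebra k L] {M g d : ℕ}
    (G : Fin g → MvPolynomial (Fin M) k) (c : Fin M → Fin (d + 1) → L) : Prop :=
  ∀ (Ω : Type) [Field Ω] [Algebra k Ω] [Algebra L Ω] [IsScalarTower k L Ω] (z : Fin 2 → Ω), z ≠ 0 →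
    curvePoint (fun l m => algebraMap L Ω (c l m)) z ≠ 0 ∧
    ∀ i, aeval (curvePoint (fun l m => algebraMap L Ω (c l m)) z) (G i) = 0

/-- The columns of `A` are a basis of the tangent space of the cone at `x` (for a smooth variety of
dimension `n`). -/
def IsTangentBasis {k L : Type} [Field k] [Field L] [Algebra k L] {M g n : ℕ}
    (G : Fin g → MvPolynomial (Fin M) k) (x : Fin M → L) (A : Matrix (Fin M) (Fin (n + 1)) L) :
    Prop :=
  LinearIndependent L A.col ∧ ∀ c, A.col c ∈ tangentSpace G x

/-- The height `h_K(x)` for the canonical class `K` of the variety: the Gauss map `γ` sends a point to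
its embedded tangent space, `γ^* O(1) = K + (n + 1) H` for the hyperplane class `H`; `h_K(x)` is the
height of the vector of the maximal minors of a basis `A` of the tangent space minus
`(n + 1) h(x)`. -/
noncomputable def canonicalHeight {L : Type} [Field L] [NumberField L] {M n : ℕ} (x : Fin M → L)
    (A : Matrix (Fin M) (Fin (n + 1)) L) : ℝ :=
  height (fun J : Fin (n + 1) → Fin M => (A.submatrix J id).det) - (n + 1) * height x

/-- The height `h_D(x) = ∑ i, h_{D_i}(x)`, where `h_{D_i}(x) = δ i h(x) - h(F i 0 (x) : F i 1 (x) : …)`: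
the forms `F i j` are sections of `δ i H` with the fixed part `D_i` and without further base
points. -/
noncomputable def divisorHeight {k L : Type} [Field k] [Field L] [NumberField L] [Algebra k L]
    {M q w : ℕ} (F : Fin q → Fin w → MvPolynomial (Fin M) k) (δ : Fin q → ℕ) (x : Fin M → L) : ℝ :=
  ∑ i, (δ i * height x - height fun j => aeval x (F i j))

/-- The local height `λ_{D_i}(x) = log ((max_l |x_l|) ^ δ i / max_j |F i j (x)|)` for an absolute value
of `L`, where `D_i` has the equations `F i j` of degree `δ i`. -/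
noncomputable def localHeight {k L : Type} [Field k] [Field L] [NumberField L] [Algebra k L]
    {M w : ℕ} (f : AbsoluteValue L ℝ) (F : Fin w → MvPolynomial (Fin M) k) (δ : ℕ)
    (x : Fin M → L) : ℝ :=
  Real.log ((⨆ l, f (x l)) ^ δ / ⨆ j, f (aeval x (F j)))

open Classical in
/-- The truncated counting function `N^(1)_S(D, x)`: the sum of `log N(v)` over the primes `v` which are
not in `S` and at which one of the local heights `λ_{D_i}(x)` is positive, divided by `[L : ℚ]`. -/
noncomputable def counting {k L : Type} [Field k] [Field L] [NumberField L] [Algebra k L]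
    {M q w : ℕ} (S : Finset (HeightOneSpectrum (𝓞 L)))
    (F : Fin q → Fin w → MvPolynomial (Fin M) k) (δ : Fin q → ℕ) (x : Fin M → L) : ℝ :=
  (∑ᶠ v : HeightOneSpectrum (𝓞 L),
    if v ∉ S ∧ ∃ i, 0 < localHeight (FinitePlace.mk v).1 (F i) (δ i) x then
      Real.log (Ideal.absNorm v.asIdeal) else 0) / Module.finrank ℚ L

/-- The parameters (over all extension fields) of the points in which the curve with the coefficients
`c` meets one of the `D_i` have degree at most `r` over `K`: the degree of the minimal polynomial of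
`z_0 / z_1`. -/
def CrossingDegreeLE {k K : Type} [Field k] [Field K] [Algebra k K] {M q w d : ℕ} (r : ℕ)
    (F : Fin q → Fin w → MvPolynomial (Fin M) k) (c : Fin M → Fin (d + 1) → K) : Prop :=
  ∀ (Ω : Type) [Field Ω] [Algebra k Ω] [Algebra K Ω] [IsScalarTower k K Ω] (z : Fin 2 → Ω),
    z ≠ 0 → ∀ i, (∀ j, aeval (curvePoint (fun l m => algebraMap K Ω (c l m)) z) (F i j) = 0) →
      (minpoly K (z 0 / z 1)).natDegree ≤ r

/-- A set of points of the projective line over `K` with at most `C B ^ (2 - ν)` points of height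
(relative to `K`) at most `B` for all `B ≥ 1`, where `ν > 0`. -/
def IsSparse {K : Type} [Field K] [NumberField K] (E : Set (Projectivization K (Fin 2 → K))) :
    Prop :=
  ∃ ν C : ℝ, 0 < ν ∧ ∀ B : ℝ, 1 ≤ B →
    {P | P ∈ E ∧ Projectivization.mulHeight P ≤ B}.Finite ∧
    ({P | P ∈ E ∧ Projectivization.mulHeight P ≤ B}.ncard : ℝ) ≤ C * B ^ (2 - ν)

theorem mem_tangentSpace {k Ω : Type} [Field k] [Field Ω] [Algebra k Ω] {M g : ℕ}
    {G : Fin g → MvPolynomial (Fin M) k} {z v : Fin M → Ω} :
    v ∈ tangentSpace G z ↔ ∀ i, ∑ j, aeval z (pderiv j (G i)) * v j = 0 := by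
  unfold tangentSpace
  rw [Submodule.mem_iInf]
  refine forall_congr' fun i => ?_
  rw [LinearMap.mem_ker, LinearMap.sum_apply]
  rfl

theorem tangentSpace_eq {k Ω : Type} [Field k] [Field Ω] [Algebra k Ω] {M g : ℕ}
    (G : Fin g → MvPolynomial (Fin M) k) (z : Fin M → Ω) :
    tangentSpace G z = Pool.Agent.N750.TS G z := by
  ext v
  rw [mem_tangentSpace, Pool.Agent.N750.mem_TS]

/-- a local height is positive -/
theorem localHeight_pos {k L : Type} [Field k] [Field L] [NumberField L] [Algebra k L]
    {M w : ℕ} (v : HeightOneSpectrum (𝓞 L)) (F : Fin w → MvPolynomial (Fin M) k) (δ : ℕ)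
    (x : Fin M → L) (hx : x ≠ 0) (hxF : ∃ j, aeval x (F j) ≠ 0) :
    0 < localHeight (FinitePlace.mk v).1 F δ x ↔
      ∀ j, Pool.Agent.W180.OP.av (Sum.inr v : Pool.Agent.W180.OP.Pl L) (aeval x (F j)) <
        Pool.Agent.W180.OP.nrm (Pool.Agent.W180.OP.av (Sum.inr v : Pool.Agent.W180.OP.Pl L)) x ^ δ
    := by
  set f := Pool.Agent.W180.OP.av (Sum.inr v : Pool.Agent.W180.OP.Pl L) with hf
  obtain ⟨j0, hj0⟩ := hxF
  have hF0 : (fun j => aeval x (F j)) ≠ 0 := fun h => hj0 (congrFun h j0)
  have h1 := Pool.Agent.W180.OP.nrm_pos f hx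
  have h2 := Pool.Agent.W180.OP.nrm_pos f hF0
  have e1 : localHeight (FinitePlace.mk v).1 F δ x = Real.log (Pool.Agent.W180.OP.nrm f x ^ δ /
      Pool.Agent.W180.OP.nrm f (fun j => aeval x (F j))) := rfl
  rw [e1, Real.log_pos_iff (by positivity), one_lt_div h2]
  constructor
  · intro h j
    exact (Pool.Agent.W180.OP.le_nrm f (fun j => aeval x (F j)) j).trans_lt h
  · intro h
    obtain ⟨j, hj⟩ := Pool.Agent.W180.OP.exists_nrm f j0.pos (fun j => aeval x (F j))
    rw [← hj]
    exact h j

theorem counting_eq {k L : Type} [Field k] [Field L] [NumberField L] [Algebra k L]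
    {M q w : ℕ} (S : Finset (HeightOneSpectrum (𝓞 L)))
    (F : Fin q → Fin w → MvPolynomial (Fin M) k) (δ : Fin q → ℕ) (x : Fin M → L) (hx : x ≠ 0)
    (hxF : ∀ i, ∃ j, aeval x (F i j) ≠ 0) :
    counting S F δ x = Pool.Agent.Q290.NF.wt (fun v => v ∉ S ∧
      Pool.Agent.H432.TC.DM F δ x v) / Module.finrank ℚ L := by
  unfold counting Pool.Agent.Q290.NF.wt
  congr 1
  refine finsum_congr fun v => ?_
  have h1 : (∃ i, 0 < localHeight (FinitePlace.mk v).1 (F i) (δ i) x) ↔
      Pool.Agent.H432.TC.DM F δ x v := by
    unfold Pool.Agent.H432.TC.DM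
    exact exists_congr fun i => localHeight_pos v (F i) (δ i) x hx (hxF i)
  by_cases h : v ∉ S ∧ Pool.Agent.H432.TC.DM F δ x v
  · rw [if_pos (by rw [h1]; exact h), Pool.Agent.Q290.NF.ind_pos
      (P := fun v => v ∉ S ∧ Pool.Agent.H432.TC.DM F δ x v) h]
    rfl
  · rw [if_neg (by rw [h1]; exact h), Pool.Agent.Q290.NF.ind_neg
      (P := fun v => v ∉ S ∧ Pool.Agent.H432.TC.DM F δ x v) h]

/-- the curves in the sense of the helper files -/
theorem rc0 {k L : Type} [Field k] [Field L] [Algebra k L] {M g d : ℕ}
    {G : Fin g → MvPolynomial (Fin M) k} {e : Fin g → ℕ} (hG : ∀ i, (G i).IsHomogeneous (e i))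
    {c : Fin M → Fin (d + 1) → L} (hc : IsRationalCurve G c) :
    Pool.Agent.H432.TC.RC0 G c := by
  refine ⟨?_, ?_⟩
  · intro Ω _ _ z hz
    let _ : Algebra k Ω := ((algebraMap L Ω).comp (algebraMap k L)).toAlgebra
    have _ : IsScalarTower k L Ω := IsScalarTower.of_algebraMap_eq fun a => rfl
    exact (hc Ω z hz).1
  · intro Ω _ _ _ _ z i
    by_cases hz : z = 0
    · rw [hz]
      have hne : (![1, 1] : Fin 2 → Ω) ≠ 0 := fun h => one_ne_zero (congrFun h 0)
      have h1 := (hc Ω ![1, 1] hne).2 i
      by_cases hd0 : d = 0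
      · subst hd0
        have h2 : Pool.Agent.H432.RC.pc (fun l m => algebraMap L Ω (c l m))
            (0 : Fin 2 → Ω) = curvePoint (fun l m => algebraMap L Ω (c l m)) ![1, 1] := by
          funext l
          unfold Pool.Agent.H432.RC.pc curvePoint
          simp
        rw [h2]
        exact h1
      · have h2 : Pool.Agent.H432.RC.pc (fun l m => algebraMap L Ω (c l m))
            (0 : Fin 2 → Ω) = fun l => 0 * curvePoint (fun l m => algebraMap L Ω (c l m))
              ![1, 1] l := by
          funext l
          unfold Pool.Agent.H432.RC.pc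
          rw [zero_mul]
          refine Finset.sum_eq_zero fun m _ => ?_
          have h3 : (0 : Ω) ^ (m : ℕ) * (0 : Ω) ^ (d - (m : ℕ)) = 0 := by
            rw [← pow_add]
            have : (m : ℕ) + (d - m) = d := by
              have := m.2
              omega
            rw [this, zero_pow hd0]
          show _ * ((0 : Ω) ^ (m : ℕ) * (0 : Ω) ^ (d - (m : ℕ))) = 0
          rw [h3, mul_zero]
        rw [h2, Pool.Agent.H432.RC.aeval_hom (hG i), h1, mul_zero]
    · exact (hc Ω z hz).2 i

/-- **One sparse set of parameters in Vojta's conjecture with truncated counting function.** There are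
sets `E K ε` of points of the projective line over `K`, for all number fields `K` and `ε > 0`, with at
most `C B ^ (2 - ν)` points of height at most `B` (`ν > 0`), such that the following holds for every
smooth projective variety `X` of dimension `n ≥ 1` over a number field `k` (with the equations `G i`),
every normal crossings divisor `D` on `X` (with the equations `F i j`) and every `N`. There is a form
`Φ` over `k` which does not vanish on `X` such that for all number fields `K` over `k`, all `ε > 0`,
all rational curves `φ` over `K` on `X` of degree `d` with `1 ≤ d ≤ N`, on which `Φ` does not vanish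
identically, which are not contained in `D` and which meet `D` in points with parameters of degree at
most five over `K`, and all finite sets `S` of primes of `K` there is `C` such that all points
`x = φ(s)` outside `D` with `s ∈ ℙ^1(K)`, `s ∉ E K ε`, satisfy
`h_K(x) + h_D(x) + (2 - ε) h(s) ≤ N^(1)_S(D, x) + C`. -/
theorem result :
    ∃ E : ∀ (K : Type) [Field K] [NumberField K], ℝ → Set (Projectivization K (Fin 2 → K)),
      (∀ (K : Type) [Field K] [NumberField K] (ε : ℝ), 0 < ε → IsSparse (E K ε)) ∧
      ∀ (k : Type) [Field k] [NumberField k] (n M g q w : ℕ), 1 ≤ n →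
      ∀ (G : Fin g → MvPolynomial (Fin M) k) (e : Fin g → ℕ),
      (∀ i, (G i).IsHomogeneous (e i)) → (Ideal.span (Set.range G)).IsPrime → IsSmooth n G →
      ∀ (F : Fin q → Fin w → MvPolynomial (Fin M) k) (δ : Fin q → ℕ),
      (∀ i j, (F i j).IsHomogeneous (δ i)) → IsNormalCrossings G F → ∀ N : ℕ,
      ∃ (m : ℕ) (Φ : MvPolynomial (Fin M) k), Φ ∉ Ideal.span (Set.range G) ∧ Φ.IsHomogeneous m ∧
        ∀ (K : Type) [Field K] [NumberField K] [Algebra k K] (ε : ℝ), 0 < ε →
        ∀ d ≤ N, 1 ≤ d → ∀ c : Fin M → Fin (d + 1) → K, IsRationalCurve G c →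
        (∃ z : Fin 2 → K, aeval (curvePoint c z) Φ ≠ 0) →
        (∃ z : Fin 2 → K, z ≠ 0 ∧ ∀ i, ∃ j, aeval (curvePoint c z) (F i j) ≠ 0) →
        CrossingDegreeLE 5 F c → ∀ S : Finset (HeightOneSpectrum (𝓞 K)),
        ∃ C : ℝ, ∀ (s : Fin 2 → K) (hs : s ≠ 0),
          (∀ i, ∃ j, aeval (curvePoint c s) (F i j) ≠ 0) →
          Projectivization.mk K s hs ∉ E K ε →
          ∀ A : Matrix (Fin M) (Fin (n + 1)) K, IsTangentBasis G (curvePoint c s) A →
          canonicalHeight (curvePoint c s) A + divisorHeight F δ (curvePoint c s) +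
            (2 - ε) * height s ≤ counting S F δ (curvePoint c s) + C := by
  classical
  refine ⟨fun K _ _ ε => Pool.Agent.H432.TC.univ K ε,
    fun K _ _ ε hε => Pool.Agent.H432.TC.univ_sparse K ε hε, ?_⟩
  intro k _ _ n M g q w hn G e hG hI hX F δ hF hD N
  obtain ⟨n', rfl⟩ : ∃ n', n = n' + 1 := ⟨n - 1, by omega⟩
  have hsm : Pool.Agent.N750.Sm (n' + 1) G := by
    intro Ω _ _ z hz hzG
    rw [← tangentSpace_eq]
    exact hX Ω z hz hzG
  have hnc : Pool.Agent.H432.RC.NCD G F := by
    intro Ω _ _ z hz hzG
    obtain ⟨J, hJ⟩ := hD Ω z hz hzG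
    refine ⟨J, fun c hc hv => hJ c hc fun v hvm => hv v ?_⟩
    rw [← tangentSpace_eq]
    exact hvm
  obtain ⟨m, Φ, hΦm, hΦI, hmain⟩ := Pool.Agent.H432.TC.main_uni G e hG hI hsm F δ hF hnc N
  refine ⟨m, Φ, hΦI, hΦm, ?_⟩
  intro L _ _ _ ε hε d hdN hd0 c hc hz hD' hdeg S
  have hd : (0 : ℝ) < Module.finrank ℚ L := by exact_mod_cast Module.finrank_pos
  obtain ⟨C, hC⟩ := hmain L ε hε d hdN hd0 c (rc0 hG hc) hz hD'
    (fun E _ _ _ _ z hz i hi => hdeg E z hz i hi) S
  refine ⟨C / Module.finrank ℚ L, fun s hs hsF hsE A hA => ?_⟩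
  have hx0 : curvePoint c s ≠ 0 := (hc L s hs).1
  have hTB : Pool.Agent.N750.IsTB G (curvePoint c s) (fun l c => A l c) := by
    refine ⟨hA.1, fun c => ?_⟩
    rw [← tangentSpace_eq]
    exact hA.2 c
  have h1 := hC s hs hsF hsE (fun l c => A l c) hTB
  have e0 : Pool.Agent.H432.RC.pc c s = curvePoint c s := rfl
  rw [e0] at h1
  rw [counting_eq S F δ _ hx0 hsF]
  have e1 : Pool.Agent.N750.mv (fun l c => A l c) =
      fun J : Fin (n' + 1 + 1) → Fin M => (A.submatrix J id).det := rfl
  rw [e1] at h1
  unfold canonicalHeight divisorHeight height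
  set D : ℝ := (Module.finrank ℚ L : ℝ) with hDdef
  have e2 : ∑ i, ((δ i : ℝ) * (Height.logHeight (curvePoint c s) / D) -
      Height.logHeight (fun j => aeval (curvePoint c s) (F i j)) / D) =
      (∑ i, ((δ i : ℝ) * Height.logHeight (curvePoint c s) -
      Height.logHeight (fun j => aeval (curvePoint c s) (F i j)))) / D := by
    rw [Finset.sum_div]
    exact Finset.sum_congr rfl fun i _ => by ring
  rw [e2]
  have h3 := div_le_div_of_nonneg_right h1 hd.le
  push_cast
  calc _ = (Height.logHeight (fun J : Fin (n' + 1 + 1) → Fin M => (A.submatrix J id).det) -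
        (n' + 2) * Height.logHeight (curvePoint c s) +
        ∑ i, ((δ i : ℝ) * Height.logHeight (curvePoint c s) -
        Height.logHeight (fun j => aeval (curvePoint c s) (F i j))) +
        (2 - ε) * Height.logHeight s) / D := by ring
    _ ≤ _ := h3
    _ = _ := by ring

end Pool.Agent.Results.MP_9ec3f0_nt.OneSparseSetOfParameters
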