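import Pool.Agent.H912.AE.Nf3

/-!
# Integral points on the root stacks of a projective variety along the coordinate hyperplanes

Let `X ⊂ ℙ^n` be a closed set over `ℚ`, given by an arbitrary set `S` of forms.  An integral point
over the ring of integers of a number field `L` of the `m`-th root stack of `X` along the
coordinate hyperplanes (a Darmon point for the orbifold structure with multiplicity `m` on them) is
a point `y ∈ X(L)` whose intersection multiplicities with the coordinate hyperplanes are divisible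
by `m` at all primes: the fractional ideals `(y_i / y_j)` are `m`-th powers.  We prove that for
all `m` outside a set of natural density zero this stack does not have an integral point over the
ring of integers of any number field of degree at most `D`, unless some Hadamard power `X^(e)`,
`e ≤ D`, contains a point whose coordinates are `0`, `1` and `-1`.
-/

set_option autoImplicit false

open Filter Topology NumberField nonZeroDivisors

namespace Pool.Agent.Results.MP_9ec3f0_nt.RootStacks

/-- `y` is a vector of homogeneous coordinates of a point over `L` of the set `X ⊂ ℙ^n` of the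
common zeros of the forms in `S`. -/
def IsPoint {L : Type} [Field L] [Algebra ℚ L] {n : ℕ}
    (S : Set (MvPolynomial (Fin (n + 1)) ℚ)) (y : Fin (n + 1) → L) : Prop :=
  y ≠ 0 ∧ ∀ F ∈ S, MvPolynomial.aeval y F = 0

/-- The fractional ideals `(y_i / y_j)` are `m`-th powers of fractional ideals, for all `i`, `j`
with `y_i ≠ 0` and `y_j ≠ 0`. -/
def IsDarmon {L : Type} [Field L] [NumberField L] {n : ℕ} (m : ℕ) (y : Fin (n + 1) → L) : Prop :=
  ∀ i j, y i ≠ 0 → y j ≠ 0 → ∃ I : FractionalIdeal (𝓞 L)⁰ L,
    FractionalIdeal.spanSingleton (𝓞 L)⁰ (y i / y j) = I ^ m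

/-- The forms with coefficients in `ℚ` which vanish at the coordinatewise product of any `e` zeros
of `S`, over any field containing `ℚ`: the equations of the Hadamard power `X^(e)`, the Zariski
closure of the set of coordinatewise products of `e` points of `X`. -/
def Had {n : ℕ} (S : Set (MvPolynomial (Fin (n + 1)) ℚ)) (e : ℕ) :
    Set (MvPolynomial (Fin (n + 1)) ℚ) :=
  {G | (∃ d, G.IsHomogeneous d) ∧ ∀ (L : Type) [Field L] [Algebra ℚ L]
    (z : Fin e → Fin (n + 1) → L), (∀ j, ∀ F ∈ S, MvPolynomial.aeval (z j) F = 0) →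
      MvPolynomial.aeval (fun i => ∏ j, z j i) G = 0}

/-- All coordinates of `η` are `0`, `1` or `-1`. -/
def IsTrivial {n : ℕ} (η : Fin (n + 1) → ℚ) : Prop := ∀ i, η i = 0 ∨ η i = 1 ∨ η i = -1

/-- The set `A` of positive integers has natural density `δ`. -/
def HasDensity (A : Set ℕ) (δ : ℝ) : Prop :=
  Tendsto (fun N : ℕ => ((A ∩ Set.Icc 1 N).ncard : ℝ) / N) atTop (𝓝 δ)

/-- the norm of a point is a point of the Hadamard power -/
lemma norm_isPoint {L : Type} [Field L] [Algebra ℚ L] [FiniteDimensional ℚ L] {n : ℕ}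
    (S : Set (MvPolynomial (Fin (n + 1)) ℚ)) {y : Fin (n + 1) → L}
    (hy : ∀ F ∈ S, MvPolynomial.aeval y F = 0) {G : MvPolynomial (Fin (n + 1)) ℚ}
    (hG : G ∈ Had S (Module.finrank ℚ L)) :
    MvPolynomial.aeval (fun i => Algebra.norm ℚ (y i)) G = 0 := by
  let E := AlgebraicClosure ℚ
  have hcard : Fintype.card (L →ₐ[ℚ] E) = Module.finrank ℚ L := AlgHom.card ℚ L E
  let σ : Fin (Module.finrank ℚ L) ≃ (L →ₐ[ℚ] E) := (Fintype.equivFinOfCardEq hcard).symm
  have h1 := hG.2 E (fun j i => σ j (y i)) (fun j F hF => by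
    have h2 := congrArg (σ j) (hy F hF)
    rw [map_zero, ← AlgHom.comp_apply, MvPolynomial.comp_aeval] at h2
    exact h2)
  have h2 : (fun i => ∏ j, σ j (y i)) = fun i => algebraMap ℚ E (Algebra.norm ℚ (y i)) := by
    funext i
    rw [Algebra.norm_eq_prod_embeddings ℚ E (y i)]
    exact Equiv.prod_comp σ (fun τ : L →ₐ[ℚ] E => τ (y i))
  rw [h2] at h1
  apply (algebraMap ℚ E).injective
  rw [map_zero, ← h1]
  exact (MvPolynomial.aeval_algebraMap_apply E _ G).symm

/-- the field of rational numbers is the second cyclotomic field -/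
lemma cyc_two : @IsCyclotomicExtension {2} ℚ ℚ _ _ DivisionRing.toRatAlgebra := by
  have h1 : IsCyclotomicExtension {2} ℚ ℚ := by
    rw [IsCyclotomicExtension.iff_singleton]
    refine ⟨⟨-1, ?_⟩, fun x => ?_⟩
    · exact IsPrimitiveRoot.neg_one 0 (by norm_num)
    · exact Subalgebra.algebraMap_mem _ x
  have h2 : (DivisionRing.toRatAlgebra : Algebra ℚ ℚ) = Algebra.id ℚ := Subsingleton.elim _ _
  rw [h2]
  exact h1

/-- The sign vectors. -/
def sg {n : ℕ} (s : Fin (n + 1) → Bool) (i : Fin (n + 1)) : ℚ := if s i then 1 else -1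

/-- the form `G(s_0 x_0, ..., s_n x_n)` -/
noncomputable def tw {n : ℕ} (s : Fin (n + 1) → Bool) (G : MvPolynomial (Fin (n + 1)) ℚ) :
    MvPolynomial (Fin (n + 1)) ℚ :=
  MvPolynomial.aeval (fun i => MvPolynomial.C (sg s i) * MvPolynomial.X i) G

lemma tw_hom {n : ℕ} (s : Fin (n + 1) → Bool) {G : MvPolynomial (Fin (n + 1)) ℚ} {d : ℕ}
    (hG : G.IsHomogeneous d) : (tw s G).IsHomogeneous (1 * d) := by
  refine hG.aeval _ fun i => ?_
  have h1 := (MvPolynomial.isHomogeneous_C (Fin (n + 1)) (sg s i)).mul
    (MvPolynomial.isHomogeneous_X ℚ i)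
  rwa [zero_add] at h1

lemma eval₂_tw {n : ℕ} {R : Type} [CommRing R] (φ : ℚ →+* R) (s : Fin (n + 1) → Bool)
    (G : MvPolynomial (Fin (n + 1)) ℚ) (z : Fin (n + 1) → R) :
    MvPolynomial.eval₂ φ z (tw s G) = MvPolynomial.eval₂ φ (fun i => φ (sg s i) * z i) G := by
  have h1 := MvPolynomial.hom_eval₂ G (algebraMap ℚ (MvPolynomial (Fin (n + 1)) ℚ))
    (MvPolynomial.eval₂Hom φ z) (fun i => MvPolynomial.C (sg s i) * MvPolynomial.X i)
  have h2 : (MvPolynomial.eval₂Hom φ z).comp (algebraMap ℚ (MvPolynomial (Fin (n + 1)) ℚ)) = φ := by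
    ext a
    simp
  rw [h2] at h1
  have h3 : (fun i => (MvPolynomial.eval₂Hom φ z) (MvPolynomial.C (sg s i) *
      MvPolynomial.X i)) = fun i => φ (sg s i) * z i := by
    funext i
    simp
  rw [h3] at h1
  exact h1

/-- **Main theorem.** Let `X ⊂ ℙ^n` be the set of zeros of an arbitrary set `S` of forms with
rational coefficients, let `X^(e)` be the Zariski closure of the set of coordinatewise products of
`e` points of `X`, and let `D ≥ 1`.

1. For all `m` outside a set of natural density zero the following holds.  Let `L` be a number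
   field of degree `e ≤ D`, and `y` a point of `X` over `L` such that the fractional ideals
   `(y_i / y_j)`, `y_i y_j ≠ 0`, are `m`-th powers.  Then there is a point `η` of `X^(e)` whose
   coordinates are `0`, `1` or `-1`, with `η_i = 0` if `y_i = 0`.
2. If `X` has no point whose coordinates are `0`, `1` or `-1`, then for all `m` outside a set of
   natural density zero there is no point `y` of `X` over `ℚ` such that all the `y_i / y_j`,
   `y_i y_j ≠ 0`, are `m`-th powers up to sign.  If it has such a point, then this point has this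
   property for all `m`. -/
theorem result {n : ℕ} (S : Set (MvPolynomial (Fin (n + 1)) ℚ))
    (hS : ∀ F ∈ S, ∃ d, F.IsHomogeneous d) :
    (∀ D : ℕ, HasDensity {m | ∀ (L : Type) [Field L] [NumberField L], Module.finrank ℚ L ≤ D →
      ∀ y : Fin (n + 1) → L, IsPoint S y → IsDarmon m y →
        ∃ η : Fin (n + 1) → ℚ, IsTrivial η ∧ IsPoint (Had S (Module.finrank ℚ L)) η ∧
          ∀ i, y i = 0 → η i = 0} 1) ∧
    ((¬ ∃ η : Fin (n + 1) → ℚ, IsTrivial η ∧ IsPoint S η) →
      HasDensity {m | ¬ ∃ y : Fin (n + 1) → ℚ, IsPoint S y ∧ IsDarmon m y} 1) ∧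
    (∀ η : Fin (n + 1) → ℚ, IsTrivial η → IsPoint S η → ∀ m, IsDarmon m η) := by
  classical
  have hcyc := cyc_two
  -- the main part
  have main : ∀ D : ℕ, HasDensity {m | ∀ (L : Type) [Field L] [NumberField L],
      Module.finrank ℚ L ≤ D → ∀ y : Fin (n + 1) → L, IsPoint S y → IsDarmon m y →
        ∃ η : Fin (n + 1) → ℚ, IsTrivial η ∧ IsPoint (Had S (Module.finrank ℚ L)) η ∧
          ∀ i, y i = 0 → η i = 0} 1 := by
    intro D
    -- the family
    let E := Fin (D + 1) × (Fin (n + 1) → Bool)
    let ι := Fintype.equivFin E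
    let fam : ℕ → Set (MvPolynomial (Fin (n + 1)) ℚ) := fun a =>
      if h : a < Fintype.card E then
        (tw (ι.symm ⟨a, h⟩).2) '' (Had S ((ι.symm ⟨a, h⟩).1 : ℕ)) else ∅
    have hfam : ∀ (e : Fin (D + 1)) (s : Fin (n + 1) → Bool),
        fam (ι (e, s) : ℕ) = (tw s) '' (Had S (e : ℕ)) := by
      intro e s
      have h1 : ((ι (e, s) : Fin (Fintype.card E)) : ℕ) < Fintype.card E := (ι (e, s)).2
      simp only [fam, h1, dif_pos, Fin.eta, Equiv.symm_apply_apply]
    have hhom : ∀ a ∈ Finset.range (Fintype.card E), ∀ F ∈ fam a, ∃ d, F.IsHomogeneous d := by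
      intro a ha F hF
      have h1 := Finset.mem_range.1 ha
      simp only [fam, h1, dif_pos] at hF
      obtain ⟨G, hG, rfl⟩ := hF
      obtain ⟨d, hd⟩ := hG.1
      exact ⟨1 * d, tw_hom _ hd⟩
    set W : Set ℕ := {m | ∃ Q : Finset ℕ, Q.card = 1 ∧ ∀ q ∈ Q,
      ∀ a ∈ Finset.range (Fintype.card E), Pool.Agent.H912.AE.WitK 2 (fam a) m q} with hW
    have hWd : HasDensity W 1 := by
      refine Pool.Agent.H912.AE.full_of fun ε hε => ?_
      obtain ⟨N₀, h⟩ := Pool.Agent.H912.AE.witnessesKF (w := 2) (dvd_refl 2) (K := ℚ)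
        (Finset.range (Fintype.card E)) fam hhom 1 0 hε
      refine ⟨N₀, fun M hM => le_trans ?_ (h M hM)⟩
      have h1 : (Finset.range M).filter (fun m => m ∉ W) ⊆ (Finset.range M).filter (fun m =>
          ¬ ∃ Q : Finset ℕ, Q.card = 1 ∧ ∀ q ∈ Q, 0 < q ∧
            ∀ a ∈ Finset.range (Fintype.card E), Pool.Agent.H912.AE.WitK 2 (fam a) m q) := by
        intro m hm
        rw [Finset.mem_filter] at hm ⊢
        refine ⟨hm.1, ?_⟩
        rintro ⟨Q, hQ, hQ'⟩
        exact hm.2 ⟨Q, hQ, fun q hq => (hQ' q hq).2⟩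
      exact_mod_cast Finset.card_le_card h1
    refine Pool.Agent.H912.AE.density_congr hWd Pool.Agent.H912.AE.density_univ
      fun m hm hm1 => ⟨fun _ => Set.mem_univ _, fun _ => ?_⟩
    intro L _ _ hL y hy hyD
    obtain ⟨Q, hQ, hQ'⟩ := hm
    obtain ⟨q, rfl⟩ := Finset.card_eq_one.1 hQ
    have hWit := hQ' q (Finset.mem_singleton_self q)
    set e : Fin (D + 1) := ⟨Module.finrank ℚ L, by omega⟩ with he
    obtain ⟨i₀, hi₀⟩ := Function.ne_iff.1 hy.1
    simp only [Pi.zero_apply] at hi₀
    -- the norms are powers up to sign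
    have hpow : ∀ i, ∃ (s : Bool) (t : ℚ), Algebra.norm ℚ (y i / y i₀) =
        (if s then (1 : ℚ) else -1) * t ^ m ∧ (y i = 0 → t = 0) ∧ (t = 0 → y i = 0) := by
      intro i
      by_cases h0 : y i = 0
      · refine ⟨true, 0, ?_, fun _ => rfl, fun _ => h0⟩
        rw [h0, zero_div, Algebra.norm_zero, zero_pow (by omega), mul_zero]
      · obtain ⟨I, hI⟩ := hyD i i₀ h0 hi₀
        have h1 := congrArg FractionalIdeal.absNorm hI
        rw [FractionalIdeal.absNorm_span_singleton, map_pow] at h1
        have hne : y i / y i₀ ≠ 0 := div_ne_zero h0 hi₀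
        have hN : Algebra.norm ℚ (y i / y i₀) ≠ 0 := Algebra.norm_ne_zero_iff.2 hne
        refine ⟨decide (0 ≤ Algebra.norm ℚ (y i / y i₀)), FractionalIdeal.absNorm I, ?_,
          fun h => absurd h h0, fun h => ?_⟩
        · by_cases h2 : 0 ≤ Algebra.norm ℚ (y i / y i₀)
          · rw [abs_of_nonneg h2] at h1
            simp only [h2, decide_true, if_true, one_mul]
            exact h1
          · rw [abs_of_neg (not_le.1 h2)] at h1
            simp only [h2, decide_false, Bool.false_eq_true, if_false]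
            rw [← h1]
            ring
        · rw [h, zero_pow (by omega), abs_eq_zero] at h1
          exact absurd h1 hN
    choose s t hst ht0 ht1 using hpow
    have hq := hWit (ι (e, s) : ℕ) (Finset.mem_range.2 (ι (e, s)).2)
    rw [hfam] at hq
    obtain ⟨hqp, ⟨φ⟩, hφ⟩ := hq
    have ht : (fun i => φ (t i)) ≠ 0 := by
      intro h
      have h1 := congrFun h i₀
      simp only [Pi.zero_apply, map_eq_zero] at h1
      exact hi₀ (ht1 i₀ h1)
    obtain ⟨η, h1, h2, h3⟩ := hφ φ (fun i => φ (t i)) ht (by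
      rintro _ ⟨G, hG, rfl⟩
      rw [eval₂_tw]
      have h4 : (fun i => φ (sg s i) * φ (t i) ^ m) =
          fun i => φ (Algebra.norm ℚ (y i / y i₀)) := by
        funext i
        rw [hst i, map_mul, map_pow]
        rfl
      rw [h4]
      have h5 := norm_isPoint S hy.2 hG
      obtain ⟨d, hd⟩ := hG.1
      have h6 : (fun i => Algebra.norm ℚ (y i / y i₀)) =
          fun i => (Algebra.norm ℚ (y i₀))⁻¹ * Algebra.norm ℚ (y i) := by
        funext i
        have h7 : Algebra.norm ℚ (y i) =
            Algebra.norm ℚ (y i / y i₀) * Algebra.norm ℚ (y i₀) := by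
          rw [← map_mul, div_mul_cancel₀ _ hi₀]
        have h8 : Algebra.norm ℚ (y i₀) ≠ 0 := Algebra.norm_ne_zero_iff.2 hi₀
        rw [h7]
        field_simp
      have h7 : MvPolynomial.eval₂ (RingHom.id ℚ) (fun i => Algebra.norm ℚ (y i / y i₀)) G = 0 := by
        rw [h6, Pool.Agent.H912.AE.eval₂_smul_hom (RingHom.id ℚ) hd]
        have h8 : MvPolynomial.eval₂ (RingHom.id ℚ) (fun i => Algebra.norm ℚ (y i)) G = 0 := h5
        rw [h8, mul_zero]
      have h8 := congrArg φ h7
      rw [map_zero, MvPolynomial.hom_eval₂, RingHomCompTriple.comp_eq] at h8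
      exact h8)
    have hsg : ∀ i, sg s i = 1 ∨ sg s i = -1 := by
      intro i
      unfold sg
      split_ifs
      · exact Or.inl rfl
      · exact Or.inr rfl
    have hη : ∀ i, η i = 0 ∨ η i = 1 ∨ η i = -1 := by
      intro i
      rcases h1 i with h | h
      · exact Or.inl h
      · have h' : (η i - 1) * (η i + 1) = 0 := by linear_combination h
        rcases mul_eq_zero.1 h' with h' | h'
        · exact Or.inr (Or.inl (by linear_combination h'))
        · exact Or.inr (Or.inr (by linear_combination h'))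
    have hηm : ∀ i, η i ^ m = 0 ∨ η i ^ m = 1 ∨ η i ^ m = -1 := by
      intro i
      rcases hη i with h | h | h
      · left
        rw [h, zero_pow (by omega)]
      · right; left
        rw [h, one_pow]
      · right
        rw [h]
        exact neg_one_pow_eq_or ℚ m
    obtain ⟨i₁, hi₁⟩ := Finite.exists_max (fun i => ‖φ (t i)‖)
    refine ⟨fun i => sg s i * η i ^ m, ?_, ⟨?_, ?_⟩, ?_⟩
    · intro i
      change sg s i * η i ^ m = 0 ∨ sg s i * η i ^ m = 1 ∨ sg s i * η i ^ m = -1
      rcases hηm i with h | h | h <;> rcases hsg i with h' | h' <;> rw [h, h'] <;> norm_num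
    · intro h
      have h4 := congrFun h i₁
      simp only [Pi.zero_apply, mul_eq_zero] at h4
      rcases h4 with h4 | h4
      · rcases hsg i₁ with h' | h' <;> rw [h'] at h4 <;> norm_num at h4
      · exact (h2 i₁).2 hi₁ (pow_eq_zero_iff (by omega : m ≠ 0) |>.1 h4)
    · intro G hG
      have h4 := h3 _ ⟨G, hG, rfl⟩
      have h5 := eval₂_tw (RingHom.id ℚ) s G (fun i => η i ^ m)
      exact h5.symm.trans h4
    · intro i hi
      have h4 : η i = 0 := by
        by_contra h5
        have h6 := (h2 i).1 h5 i₀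
        have h7 : t i = 0 := ht0 i hi
        simp only [h7, map_zero, norm_zero] at h6
        have h8 := norm_le_zero_iff.1 h6
        simp only [map_eq_zero] at h8
        exact hi₀ (ht1 i₀ h8)
      change sg s i * η i ^ m = 0
      rw [h4, zero_pow (by omega), mul_zero]
  refine ⟨main, fun hno => ?_, ?_⟩
  · refine Pool.Agent.H912.AE.density_congr (main 1) Pool.Agent.H912.AE.density_univ
      fun m hm hm1 => ⟨fun _ => Set.mem_univ _, fun _ => ?_⟩
    rintro ⟨y, hy, hyD⟩
    obtain ⟨η, h1, h2, -⟩ := hm ℚ (by simp) y hy hyD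
    refine hno ⟨η, h1, h2.1, fun F hF => h2.2 F ⟨hS F hF, ?_⟩⟩
    intro L _ _ z hz
    have h3 : Module.finrank ℚ ℚ = 1 := Module.finrank_self ℚ
    have h4 : ∀ (e : ℕ) (he : e = 1) (z : Fin e → Fin (n + 1) → L),
        (∀ j, ∀ F ∈ S, MvPolynomial.aeval (z j) F = 0) →
          MvPolynomial.aeval (fun i => ∏ j, z j i) F = 0 := by
      rintro _ rfl z hz
      have h5 : (fun i => ∏ j, z j i) = z 0 := by
        funext i
        simp
      rw [h5]
      exact hz 0 F hF
    exact h4 _ h3 z hz
  · intro η hη _ m i j hi hj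
    refine ⟨1, ?_⟩
    rw [one_pow]
    have h1 : η i / η j = 1 ∨ η i / η j = -1 := by
      rcases hη i with h | h | h
      · exact absurd h hi
      · rcases hη j with h' | h' | h'
        · exact absurd h' hj
        · left; rw [h, h']; norm_num
        · right; rw [h, h']; norm_num
      · rcases hη j with h' | h' | h'
        · exact absurd h' hj
        · right; rw [h, h']; norm_num
        · left; rw [h, h']; norm_num
    rcases h1 with h1 | h1
    · rw [h1, FractionalIdeal.spanSingleton_one]
    · rw [h1]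
      apply le_antisymm
      · rw [FractionalIdeal.spanSingleton_le_iff_mem, FractionalIdeal.mem_one_iff]
        exact ⟨-1, by simp⟩
      · rw [← FractionalIdeal.spanSingleton_one, FractionalIdeal.spanSingleton_le_iff_mem,
          FractionalIdeal.mem_spanSingleton]
        exact ⟨-1, by simp⟩

end Pool.Agent.Results.MP_9ec3f0_nt.RootStacks
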